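import Mathlib

set_option autoImplicit false

namespace Pool.Agent.Results.MP_d7bb9e_an.Counter

open Set

/-- The levels `q ≥ inf f` such that `max r f` is convex for every `r ≥ q`. -/
def Levels (f : ℝ → ℝ) : Set ℝ :=
  {q | sInf (range f) ≤ q ∧ ∀ r ≥ q, ConvexOn ℝ univ fun x => max r (f x)}

/-- Hypotheses (H) in dimension `n = 1`. -/
def H (f : ℝ → ℝ) : Prop :=
  ContDiff ℝ 2 f ∧ (∀ x, deriv f x = 0 → deriv (deriv f) x ≠ 0) ∧ ¬ ConvexOn ℝ univ f ∧
  BddBelow (range f) ∧ (Levels f).Nonempty ∧ sInf (Levels f) ∈ range f ∧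
  (∀ x, f x = sInf (Levels f) → deriv f x ≠ 0) ∧
  ∀ x, sInf (Levels f) < f x → 0 < deriv (deriv f) x

def ff (x : ℝ) : ℝ := x ^ 4 - 6 * x ^ 2 + 72 * x

lemma d1 : deriv ff = fun x => 4 * x ^ 3 - 12 * x + 72 := by
  funext x
  unfold ff
  simp (disch := fun_prop)
  ring

lemma d2 : deriv (deriv ff) = fun x => 12 * x ^ 2 - 12 := by
  rw [d1]
  funext x
  simp (disch := fun_prop)
  ring

lemma root {x : ℝ} : 4 * x ^ 3 - 12 * x + 72 = 0 ↔ x = -3 := by
  constructor
  · intro h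
    have : (x + 3) * (x ^ 2 - 3 * x + 6) = 0 := by linarith
    rcases mul_eq_zero.1 this with h | h <;> nlinarith [sq_nonneg (x - 2)]
  · rintro rfl
    norm_num

lemma low {x : ℝ} (h : x ^ 2 ≤ 1) : ff x ≤ 67 := by
  have := abs_le.1 ((sq_le_one_iff_abs_le_one x).1 h)
  unfold ff
  nlinarith

lemma conv {r : ℝ} (hr : 67 ≤ r) : ConvexOn ℝ univ fun x => max r (ff x) := by
  have h1 : ConvexOn ℝ univ fun x : ℝ => x ^ 4 := Even.convexOn_pow (by decide)
  let g : ℝ → ℝ := fun x => sSup {y | ∃ a : ℝ, 1 ≤ a ^ 2 ∧ y = ff a + (4 * a ^ 3 - 12 * a + 72) * (x - a)}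
  refine ⟨convex_univ, fun x _ y _ s t hs ht hst => ?_⟩
  simp only [smul_eq_mul]
  set a := s * x + t * y with ha
  have b1 := le_max_left r (ff x)
  have b2 := le_max_left r (ff y)
  refine max_le (by nlinarith) ?_
  rcases le_or_gt (ff a) r with c | c
  · nlinarith
  have a1 : 1 < a ^ 2 := by
    by_contra h
    linarith [low (not_lt.1 h)]
  have key : ∀ z, ff a + (4 * a ^ 3 - 12 * a + 72) * (z - a) ≤ max r (ff z) := by
    intro z
    have e : ff z - (ff a + (4 * a ^ 3 - 12 * a + 72) * (z - a)) =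
        (z - a) ^ 2 * ((z + a) ^ 2 + 2 * a ^ 2 - 6) := by unfold ff; ring
    rcases le_or_gt 0 ((z + a) ^ 2 + 2 * a ^ 2 - 6) with d | d
    · exact le_max_of_le_right (by nlinarith [mul_nonneg (sq_nonneg (z - a)) d])
    · refine le_max_of_le_left (le_trans ?_ hr)
      have a2 : 1 < a := by
        by_contra h
        have : a < -1 := by nlinarith
        unfold ff at c
        nlinarith
      have a3 : a < 2 := by nlinarith [sq_nonneg (z + a)]
      have z1 : z ≤ 1 := by nlinarith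
      have p : 0 ≤ 4 * a ^ 3 - 12 * a + 72 := by nlinarith
      have q := mul_le_mul_of_nonneg_left (sub_le_sub_right z1 a) p
      have : ff a + (4 * a ^ 3 - 12 * a + 72) * (1 - a) ≤ 67 := by
        unfold ff
        nlinarith [mul_nonneg (sq_nonneg (1 - a)) (by nlinarith : 0 ≤ (1 + a) ^ 2 + 2 * a ^ 2 - 6)]
      linarith
  have k1 := mul_le_mul_of_nonneg_left (key x) hs
  have k2 := mul_le_mul_of_nonneg_left (key y) ht
  have : s * (x - a) + t * (y - a) = 0 := by rw [ha]; linear_combination (-(s * x + t * y)) * hst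
  have e : ff a = s * (ff a + (4 * a ^ 3 - 12 * a + 72) * (x - a)) +
      t * (ff a + (4 * a ^ 3 - 12 * a + 72) * (y - a)) := by
    linear_combination (-ff a) * hst - (4 * a ^ 3 - 12 * a + 72) * this
  linarith

lemma notconv {r : ℝ} (hr : r < 67) : ¬ ConvexOn ℝ univ fun x => max r (ff x) := by
  intro h
  obtain ⟨e, e0, e1, he⟩ : ∃ e : ℝ, 0 < e ∧ e ≤ 1 / 2 ∧ r ≤ ff (1 - 2 * e) := by
    refine ⟨min (1 / 2) ((67 - r) / 200), lt_min (by norm_num) (by linarith), min_le_left _ _, ?_⟩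
    have a := min_le_left (1 / 2) ((67 - r) / 200)
    have b := min_le_right (1 / 2) ((67 - r) / 200)
    have c : 0 < min (1 / 2) ((67 - r) / 200) := lt_min (by norm_num) (by linarith)
    generalize min (1 / 2) ((67 - r) / 200) = e at *
    unfold ff
    nlinarith [sq_nonneg ((1 - 2 * e) ^ 2 - 1)]
  have := h.2 (mem_univ 1) (mem_univ (1 - 2 * e)) (by norm_num : (0 : ℝ) ≤ 1 / 2)
    (by norm_num : (0 : ℝ) ≤ 1 / 2) (by norm_num)
  simp only [smul_eq_mul] at this
  rw [max_eq_right he, max_eq_right (by unfold ff; linarith : r ≤ ff 1)] at this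
  have := (le_max_right _ _).trans this
  unfold ff at this
  nlinarith [pow_pos e0 3, pow_pos e0 4, mul_pos e0 e0]

lemma bdd : BddBelow (range ff) :=
  ⟨-189, by
    rintro _ ⟨x, rfl⟩
    unfold ff
    nlinarith [sq_nonneg (x + 3), sq_nonneg (x ^ 2 - 9)]⟩

lemma lev : Levels ff = Ici 67 := by
  ext q
  refine ⟨fun h => not_lt.1 fun hq => notconv hq (h.2 q le_rfl), fun h => ⟨?_, fun r hr =>
    conv (le_trans h hr)⟩⟩
  exact (csInf_le bdd ⟨0, rfl⟩).trans (le_trans (by simp [ff]) h)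

theorem result : ∃ f : ℝ → ℝ, H f ∧ {x | deriv f x = 0}.encard = 1 ∧
    ∃ y, 2 ≤ (deriv f ⁻¹' {y}).encard := by
  refine ⟨ff, ⟨by unfold ff; fun_prop, ?_, fun h => ?_, bdd, ?_, ?_, ?_, ?_⟩, ?_, 80, ?_⟩
  · intro x hx
    rw [d2]
    rw [d1, root] at hx
    norm_num [hx]
  · exact notconv (r := 0) (by norm_num) ((convexOn_const 0 convex_univ).sup h)
  · simp [lev]
  · exact ⟨1, by simp [lev, ff]; norm_num⟩
  · intro x hx h
    rw [d1, root] at h
    norm_num [lev, h, ff] at hx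
  · intro x hx
    rw [lev, csInf_Ici] at hx
    rw [d2]
    by_contra h
    linarith [low (x := x) (by simp only at h; linarith)]
  · simp only [d1, root]
    simp
  · rw [← encard_pair (by norm_num : (2 : ℝ) ≠ -1)]
    refine encard_le_encard ?_
    rintro x (rfl | rfl) <;> norm_num [d1]

end Pool.Agent.Results.MP_d7bb9e_an.Counter
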